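import Pool.Agent.Y52.SJ.Stm

/-! Lagrange multipliers (project SJ), by helper832. -/

set_option autoImplicit false

namespace Pool.Agent.Y832.SJ

open Pool.Agent.Y52.SJ

section

variable {V : Type} [NormedAddCommGroup V] [InnerProductSpace ℝ V]

/-- the admissible pairs -/
def EE (J : V →L[ℝ] V) : Submodule ℝ ((V →L[ℝ] V) × V) where
  carrier := {e | Adm J e.1}
  add_mem' := by
    rintro ⟨X, b⟩ ⟨X', b'⟩ ⟨h1, h2⟩ ⟨h3, h4⟩
    refine ⟨fun x y => ?_, fun x => ?_⟩
    · change inner ℝ (X x + X' x) y = inner ℝ x (X y + X' y)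
      rw [inner_add_left, inner_add_right]
      have e1 : inner ℝ (X x) y = inner ℝ x (X y) := h1 x y
      have e2 : inner ℝ (X' x) y = inner ℝ x (X' y) := h3 x y
      rw [e1, e2]
    · change X (J x) + X' (J x) = -J (X x + X' x)
      have e1 : X (J x) = -J (X x) := h2 x
      have e2 : X' (J x) = -J (X' x) := h4 x
      rw [e1, e2, map_add, neg_add]
  zero_mem' := by
    refine ⟨fun x y => ?_, fun x => ?_⟩
    · change inner ℝ (0 : V) y = inner ℝ x (0 : V)
      rw [inner_zero_left, inner_zero_right]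
    · change (0 : V) = -J 0
      rw [map_zero, neg_zero]
  smul_mem' := by
    rintro c ⟨X, b⟩ ⟨h1, h2⟩
    refine ⟨fun x y => ?_, fun x => ?_⟩
    · change inner ℝ (c • X x) y = inner ℝ x (c • X y)
      have e1 : inner ℝ (X x) y = inner ℝ x (X y) := h1 x y
      rw [real_inner_smul_left, real_inner_smul_right, e1]
    · change c • X (J x) = -J (c • X x)
      have e1 : X (J x) = -J (X x) := h2 x
      rw [e1, map_smul, smul_neg]

/-- the evaluation -/
def qq (u : V) : ((V →L[ℝ] V) × V) →ₗ[ℝ] ℝ where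
  toFun e := inner ℝ (e.1 u) u + inner ℝ e.2 u
  map_add' e e' := by
    change inner ℝ (e.1 u + e'.1 u) u + inner ℝ (e.2 + e'.2) u = _
    rw [inner_add_left, inner_add_left]
    ring
  map_smul' c e := by
    change inner ℝ (c • e.1 u) u + inner ℝ (c • e.2) u = c * (inner ℝ (e.1 u) u + inner ℝ e.2 u)
    rw [real_inner_smul_left, real_inner_smul_left]
    ring

theorem qq_apply (u : V) (X : V →L[ℝ] V) (b : V) :
    qq u (X, b) = inner ℝ (X u) u + inner ℝ b u := rfl

theorem qq_cont (e : (V →L[ℝ] V) × V) : Continuous fun u => qq u e := by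
  have h1 : Continuous fun u : V => inner ℝ (e.1 u) u := e.1.continuous.inner continuous_id
  have h2 : Continuous fun u : V => inner ℝ e.2 u := continuous_const.inner continuous_id
  exact h1.add h2

theorem key (k : ℕ) (E : Submodule ℝ ((V →L[ℝ] V) × V)) (bE : Module.Basis (Fin k) ℝ E) (u : V)
    (e : E) : qq u (e : (V →L[ℝ] V) × V) =
      ∑ i, bE.repr e i * qq u (bE i : (V →L[ℝ] V) × V) := by
  have h1 : ((qq u).comp E.subtype) e = ∑ i, bE.repr e i * ((qq u).comp E.subtype) (bE i) := by
    conv_lhs => rw [← bE.sum_repr e]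
    rw [map_sum]
    apply Finset.sum_congr rfl
    intro i _
    rw [map_smul]
    rfl
  exact h1

end

theorem main : S_LAG := by
  intro hH V _ _ _ J U hU h
  let bE := Module.finBasis ℝ (EE J)
  let g : V → (Fin (Module.finrank ℝ (EE J)) → ℝ) := fun u i =>
    qq u (bE i : (V →L[ℝ] V) × V)
  have hg : Continuous g := continuous_pi fun i => qq_cont _
  have h0 : (0 : Fin (Module.finrank ℝ (EE J)) → ℝ) ∈ convexHull ℝ (g '' U) := by
    apply hH _ (g '' U) (hU.image hg)
    intro f
    let e : EE J := ∑ i, f (Pi.single i 1) • bE i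
    obtain ⟨u, hu, hu2⟩ := h e.1.1 e.1.2 e.2
    refine ⟨g u, ⟨u, hu, rfl⟩, ?_⟩
    have h1 : f (g u) = qq u (e : (V →L[ℝ] V) × V) := by
      have h2 : ((qq u).comp (EE J).subtype) e = ∑ i, f (Pi.single i 1) * g u i := by
        change ((qq u).comp (EE J).subtype) (∑ i, f (Pi.single i 1) • bE i) = _
        rw [map_sum]
        apply Finset.sum_congr rfl
        intro i _
        rw [map_smul]
        rfl
      have h3 : g u = ∑ i, g u i • (Pi.single i 1 : Fin (Module.finrank ℝ (EE J)) → ℝ) := by
        ext j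
        rw [Finset.sum_apply, Finset.sum_eq_single j]
        · simp
        · intro i _ hij
          simp [Pi.single_eq_of_ne (Ne.symm hij)]
        · simp
      have h4 : f (g u) = ∑ i, f (Pi.single i 1) * g u i := by
        conv_lhs => rw [h3]
        rw [map_sum]
        apply Finset.sum_congr rfl
        intro i _
        rw [map_smul, smul_eq_mul, mul_comm]
      rw [h4, ← h2]
      rfl
    rw [h1]
    exact hu2
  obtain ⟨ι, _, w, z, hw, hw1, hz, hsum⟩ := mem_convexHull_iff_exists_fintype.1 h0
  choose u hu huz using hz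
  let eq := Fintype.equivFin ι
  have hev : ∀ e : EE J, ∑ i, w i * qq (u i) (e : (V →L[ℝ] V) × V) = 0 := by
    intro e
    have h1 : ∀ j, ∑ i, w i * qq (u i) (bE j : (V →L[ℝ] V) × V) = 0 := by
      intro j
      have h2 := congrFun hsum j
      rw [Finset.sum_apply] at h2
      refine Eq.trans ?_ h2
      apply Finset.sum_congr rfl
      intro i _
      rw [← huz]
      rfl
    have h3 : ∀ i, w i * qq (u i) (e : (V →L[ℝ] V) × V) =
        ∑ j, bE.repr e j * (w i * qq (u i) (bE j : (V →L[ℝ] V) × V)) := by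
      intro i
      rw [key _ (EE J) bE (u i) e, Finset.mul_sum]
      apply Finset.sum_congr rfl
      intro j _
      ring
    simp only [h3]
    rw [Finset.sum_comm]
    apply Finset.sum_eq_zero
    intro j _
    rw [← Finset.mul_sum, h1, mul_zero]
  refine ⟨Fintype.card ι, fun i => w (eq.symm i), fun i => u (eq.symm i), fun i => hw _, ?_,
    fun i => hu _, ?_, ?_⟩
  · rw [Equiv.sum_comp eq.symm w, hw1]
  · rw [Equiv.sum_comp eq.symm (fun i => w i • u i)]
    have h1 := hev ⟨(0, ∑ i, w i • u i), (EE J).zero_mem⟩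
    have h2 : inner ℝ (∑ i, w i • u i) (∑ i, w i • u i) = (0 : ℝ) := by
      conv_lhs => rw [inner_sum]
      rw [← h1]
      apply Finset.sum_congr rfl
      intro i _
      rw [real_inner_smul_right, qq_apply]
      change _ = w i * (inner ℝ (0 : V) (u i) + inner ℝ (∑ i, w i • u i) (u i))
      rw [inner_zero_left, zero_add]
    exact inner_self_eq_zero.1 h2
  · intro X hX
    rw [Equiv.sum_comp eq.symm (fun i => w i * inner ℝ (X (u i)) (u i))]
    have h1 := hev ⟨(X, 0), hX⟩
    rw [← h1]
    apply Finset.sum_congr rfl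
    intro i _
    rw [qq_apply, inner_zero_left, add_zero]

end Pool.Agent.Y832.SJ
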